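import Pool.Agent.Helper53.LGeo.Uniform
import Pool.Agent.Helper45.LCor.Final

/-!
The L-shaped corridor: the law of the exact formula exists and is unique; Cardy's formula from the exact
value.
-/

set_option autoImplicit false

namespace H47Perc.LN
open Finset Filter Topology LCor

/-! ### the law -/

/-- the coefficient of the backward recursion -/
noncomputable def cfA (m n : ℕ) : ℝ := 9 * ((m : ℝ) + 1 - n) * (2 * m + 2 * n + 1)
/-- the coefficient of the backward recursion -/
noncomputable def cfB (m n : ℕ) : ℝ := 12 * (n : ℝ) ^ 2 + 6 * n + 3 + NN m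
/-- the coefficient of the backward recursion -/
noncomputable def cfC (n : ℕ) : ℝ := ((n : ℝ) + 1) * (2 * n + 1)

/-- unnormalised weights, counted from `n = m` downwards -/
noncomputable def wt (m : ℕ) : ℕ → ℝ
  | 0 => 1
  | 1 => cfB m m / cfA m m
  | (j + 2) => (cfB m (m - (j + 1)) * wt m (j + 1) + cfC (m - (j + 1)) * wt m j) / cfA m (m - (j + 1))

lemma cfA_pos {m n : ℕ} (h : n ≤ m) : 0 < cfA m n := by
  unfold cfA
  have : (n : ℝ) ≤ m := by exact_mod_cast h
  have h0 : (0 : ℝ) ≤ n := Nat.cast_nonneg n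
  have h1 : (0 : ℝ) ≤ m := Nat.cast_nonneg m
  apply mul_pos
  · apply mul_pos (by norm_num)
    linarith
  · linarith

lemma cfB_pos (m n : ℕ) : 0 < cfB m n := by
  unfold cfB
  have := NN_pos m
  positivity

lemma cfC_pos (n : ℕ) : 0 < cfC n := by
  unfold cfC
  positivity

lemma wt_pos (m : ℕ) : ∀ j, j ≤ m → 0 < wt m j ∧ (j + 1 ≤ m → 0 < wt m (j + 1)) := by
  intro j
  induction j with
  | zero =>
    intro _
    refine ⟨by simp [wt], fun _ => ?_⟩
    simp only [wt]
    exact div_pos (cfB_pos _ _) (cfA_pos le_rfl)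
  | succ j ih =>
    intro hj
    obtain ⟨h1, h2⟩ := ih (by omega)
    have h3 := h2 hj
    refine ⟨h3, fun h => ?_⟩
    rw [wt]
    exact div_pos (add_pos (mul_pos (cfB_pos _ _) h3) (mul_pos (cfC_pos _) h1))
      (cfA_pos (by omega))

/-- the unnormalised weights -/
noncomputable def wn (m n : ℕ) : ℝ := if n ≤ m then wt m (m - n) else 0

lemma wn_nonneg (m n : ℕ) : 0 ≤ wn m n := by
  unfold wn
  split_ifs with h
  · exact (wt_pos m (m - n) (by omega)).1.le
  · exact le_rfl

lemma wn_self (m : ℕ) : wn m m = 1 := by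
  unfold wn
  rw [if_pos le_rfl, Nat.sub_self]
  simp [wt]

lemma wn_recu {m n : ℕ} (h1 : 1 ≤ n) (h2 : n ≤ m) :
    cfA m n * wn m (n - 1) = cfB m n * wn m n + cfC n * wn m (n + 1) := by
  unfold wn
  rw [if_pos (show n - 1 ≤ m by omega), if_pos h2]
  have hA := cfA_pos h2
  rcases Nat.eq_or_lt_of_le h2 with rfl | h3
  · rw [if_neg (by omega), Nat.sub_self, show n - (n - 1) = 1 by omega]
    simp only [wt]
    field_simp
    ring
  · rw [if_pos (show n + 1 ≤ m by omega)]
    obtain ⟨j, hj⟩ : ∃ j, m = n + (j + 1) := ⟨m - n - 1, by omega⟩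
    have e1 : m - (n - 1) = j + 2 := by omega
    have e2 : m - n = j + 1 := by omega
    have e3 : m - (n + 1) = j := by omega
    rw [e1, e2, e3, wt, show m - (j + 1) = n by omega]
    field_simp

lemma sum_wn_pos (m : ℕ) : 0 < ∑ n ∈ range (m + 1), wn m n := by
  apply sum_pos' (fun n _ => wn_nonneg m n)
  exact ⟨m, by simp, by rw [wn_self]; norm_num⟩

/-- the law of the exact formula -/
noncomputable def lawL (m n : ℕ) : ℝ := wn m n / ∑ l ∈ range (m + 1), wn m l

theorem lawL_isLaw (m : ℕ) : IsLaw m (lawL m) where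
  zero n h := by
    unfold lawL wn
    rw [if_neg (by omega), zero_div]
  recu n h1 h2 := by
    have h := wn_recu h1 h2
    have hS := sum_wn_pos m
    unfold lawL
    unfold cfA cfB cfC at h
    field_simp
    linarith
  sum := by
    unfold lawL
    rw [← sum_div]
    exact div_self (sum_wn_pos m).ne'

theorem isLaw_unique {m : ℕ} {p q : ℕ → ℝ} (hp : IsLaw m p) (hq : IsLaw m q) : p = q := by
  have key : ∀ {p : ℕ → ℝ}, IsLaw m p → ∀ n, p n = p m * wn m n := by
    intro p hp n
    by_cases h : n ≤ m + 1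
    · refine down (P := fun n => p n = p m * wn m n) ?_ ?_ ?_ n h
      · rw [wn_self, mul_one]
      · intro n hn h1 h2
        have e1 := hp.recu (n + 1) (by omega) (by omega)
        have e2 := wn_recu (m := m) (n := n + 1) (by omega) (by omega)
        have hA := cfA_pos (m := m) (n := n + 1) (by omega)
        rw [Nat.add_sub_cancel] at e1 e2
        change cfA m (n + 1) * p n = cfB m (n + 1) * p (n + 1) + cfC (n + 1) * p (n + 1 + 1) at e1
        rw [h1, h2] at e1
        apply mul_left_cancel₀ hA.ne'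
        rw [e1]
        linear_combination (-(p m)) * e2
      · rw [hp.zero _ (by omega)]
        unfold wn
        rw [if_neg (by omega), mul_zero]
    · rw [hp.zero n (by omega)]
      unfold wn
      rw [if_neg (by omega), mul_zero]
  have hS : ∀ {p : ℕ → ℝ}, IsLaw m p → p m = 1 / ∑ n ∈ range (m + 1), wn m n := by
    intro p hp
    have h1 := hp.sum
    rw [sum_congr rfl (fun n _ => key hp n), ← mul_sum] at h1
    rw [eq_div_iff (sum_wn_pos m).ne']
    exact h1
  funext n
  rw [key hp n, key hq n, hS hp, hS hq]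

/-! ### Cardy's formula -/

/-- the exact value -/
noncomputable def QL (m k : ℕ) : ℝ := PJ m k (lawL m) (lawL k)

/-- **Cardy's formula for the L-shaped corridor** from the exact value -/
theorem corridor_of (HV : ∀ m k : ℕ, Tendsto (fun M : ℕ => pX m k M) atTop (𝓝 (QL m k))) :
    ∃ c C : ℝ, 0 < c ∧ 0 < C ∧
      (∀ m k M : ℕ,
        |pX m k M - QL m k| ≤ C * Real.exp (-(c * (M / ((2 * m + 1) + (2 * k + 1)))))) ∧
      ∀ b : ℝ, 0 < b → ∀ ε : ℝ, 0 < ε →
        ∃ δ : ℝ, 0 < δ ∧ ∃ L₀ : ℕ, ∀ L h M : ℕ, L₀ ≤ L → |(h : ℝ) / L - b| < δ →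
          |pL L h M - cardyF (1 / (1 + b ^ 2))| ≤ ε + C * Real.exp (-(c * (M / (L + h)))) := by
  refine pL_uniform (val := QL) (G := fun b => cardyF (1 / (1 + b ^ 2))) HV ?_
  intro m k b hb hm hk
  have hmR : Tendsto (fun n => ((2 * m n + 1 : ℕ) : ℝ)) atTop atTop := by
    have h1 : Tendsto (fun n => (m n : ℝ)) atTop atTop := tendsto_natCast_atTop_atTop.comp hm
    refine tendsto_atTop_mono (fun n => ?_) h1
    push_cast
    have : (0 : ℝ) ≤ m n := Nat.cast_nonneg _
    linarith
  have hkR : Tendsto (fun n => ((2 * k n + 1 : ℕ) : ℝ)) atTop atTop := by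
    have h1 : Tendsto (fun n => ((2 * k n + 1 : ℕ) : ℝ) / ((2 * m n + 1 : ℕ) : ℝ) *
        ((2 * m n + 1 : ℕ) : ℝ)) atTop atTop := Tendsto.pos_mul_atTop hb hk hmR
    refine h1.congr fun n => ?_
    have : (0 : ℝ) < ((2 * m n + 1 : ℕ) : ℝ) := by positivity
    field_simp
  have hkT : Tendsto k atTop atTop := by
    rw [tendsto_atTop]
    intro K
    filter_upwards [hkR.eventually_ge_atTop (2 * K + 1)] with n hn
    have : 2 * K + 1 ≤ 2 * k n + 1 := by exact_mod_cast hn
    omega
  have hr : Tendsto (fun n => (2 * (m n : ℝ) + 1) / (2 * k n + 1)) atTop (𝓝 b⁻¹) := by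
    refine (hk.inv₀ hb.ne').congr fun n => ?_
    rw [inv_div]
    push_cast
    rfl
  have h1 := PJ_tendsto (p := lawL) lawL_isLaw hm hkT (rho := b⁻¹) (by positivity) hr
  have e : (b⁻¹) ^ 2 / (1 + (b⁻¹) ^ 2) = 1 / (1 + b ^ 2) := by
    have hb' := hb.ne'
    field_simp
    ring
  rw [e] at h1
  exact h1

end H47Perc.LN
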