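import Pool.Agent.Helper45.LGeo.Defs
import Pool.Agent.Helper53.Slit.Parity

/-!
The L-shaped corridor: the exact event against the crossing event (corner), and comparison of the
crossing probabilities for neighbouring parameters (same method as `Helper53/Slit/Parity.lean`).
-/

set_option autoImplicit false

namespace H47Perc.LN
open Finset Filter Topology SimpleGraph H47Perc H47Perc.DS H47Perc.SL
open Pool.Agent.Helper69.RSW (Up P_restrict P_congr P_mono Dep P P_compl P_indep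
  P_nonneg P_le_one P_or_le P_true P_add_of_disjoint harris perc_half_eq)

lemma lE_sub (L h M : ℤ) : lE L h M ⊆ edgesIn (dom L h M) := subset_rfl

lemma crL_up (L h : ℤ) : Up (CrL L h) := fun _ _ h hc => crL_mono h hc

lemma crX_up (m k : ℕ) : Up (CrX m k) := fun _ _ h hc => crX_mono h hc

/-- the vertex `u = a`, `w = b` is joined to the top wall -/
def ToTop (h a b : ℤ) (ω : Finset (Sym2 (ℤ × ℤ))) : Prop :=
  ∃ t z : ℤ × ℤ, t.1 + t.2 = a ∧ t.1 - t.2 = b ∧ z.1 - z.2 = h + 1 ∧ Joined ω t z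

/-- the probability of an arm to the top wall -/
lemma P_toTop {L h M a b : ℤ} {n : ℕ} (hn : 2 * (n : ℤ) ≤ h + 2 - b) :
    P (lE L h M) (ToTop h a b) ≤ pi1 n := by
  classical
  by_cases hex : ∃ t : ℤ × ℤ, t.1 + t.2 = a ∧ t.1 - t.2 = b
  · obtain ⟨t, ht1, ht2⟩ := hex
    have h1 : P (edgesIn (dom L h M)) (ToTop h a b) ≤ armP (dom L h M) t n := by
      unfold armP
      rw [perc_half_eq]
      apply P_mono
      rintro S hS ⟨t', z', h1, h2, h3, h4⟩
      have h5 : t' = t := Prod.ext (by omega) (by omega)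
      subst h5
      rw [← inter_eq_left.2 hS] at h4
      by_cases hn0 : n = 0
      · subst hn0
        refine ⟨t', by simp [AtDist], ?_⟩
        exact joined_refl _ _
      apply arm_of_joined (by omega) h4
      by_contra hcon
      push Not at hcon
      have e1 := abs_lt.1 hcon.1
      have e2 := abs_lt.1 hcon.2
      omega
    refine h1.trans ?_
    have h2 : armP (dom L h M) t n ≤
        armP ((box (-(n : ℤ)) n (-n) n).map (transl t).toEmbedding) t n := by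
      apply armP_mono
      refine inter_subset_right.trans ?_
      intro z hz
      rw [mem_map_equiv, mem_box]
      rw [mem_ball, abs_le, abs_le] at hz
      have e : (transl t).symm z = (z.1 - t.1, z.2 - t.2) := by
        rw [Equiv.symm_apply_eq]
        refine Prod.ext ?_ ?_ <;> simp [transl]
      rw [e]
      simp only
      omega
    refine h2.trans (le_of_eq ?_)
    have h3 := armP_map (transl_sym t) (box (-(n : ℤ)) n (-n) n) (0, 0) n
    have h4 : transl t (0, 0) = t := by simp [transl]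
    rw [h4] at h3
    exact h3
  · refine le_trans (le_of_eq ?_) (pi1_nonneg n)
    have : P (lE L h M) (ToTop h a b) = P (lE L h M) (fun _ => False) := by
      apply P_congr
      intro S _
      simp only [iff_false]
      rintro ⟨t, z', h1, h2, _, _⟩
      exact hex ⟨t, h1, h2⟩
    rw [this]
    unfold P
    simp

/-! ### the corner -/

lemma crL_of_crX {m k : ℕ} {ω : Finset (Sym2 (ℤ × ℤ))} (hc : CrX m k ω) :
    CrL (2 * m + 1) (2 * k + 1) ω := by
  obtain ⟨z, z', h1, h2, h3⟩ := hc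
  have h4 : Joined ω z z' := joined_mono (erase_subset _ _) h2
  rcases h3 with h3 | ⟨h3, h5⟩
  · exact ⟨z, z', by omega, ⟨h3.1, h3.2.le⟩, h4⟩
  · subst h3
    refine ⟨z, ((m : ℤ) + 1, (m : ℤ)), by omega, ⟨?_, ?_⟩, joined_trans h4 (joined_edge h5)⟩
    · simp only
      ring
    · simp only
      omega

theorem pX_le (m k : ℕ) (M : ℤ) : pX m k M ≤ pL (2 * m + 1) (2 * k + 1) M :=
  P_mono fun _ _ hc => crL_of_crX hc

lemma crX_of_crL {m k : ℕ} {ω : Finset (Sym2 (ℤ × ℤ))} (hc : CrL (2 * m + 1) (2 * k + 1) ω) :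
    CrX m k ω ∨ ToTop (2 * k + 1) (2 * m + 1) 1 ω := by
  classical
  obtain ⟨z, z', h1, ⟨h2, h2'⟩, h3⟩ := hc
  by_cases ht : ToTop (2 * k + 1) (2 * m + 1) 1 ω
  · exact Or.inr ht
  left
  have hno : ∀ v : ℤ × ℤ, Joined ω z v → ¬ (v.1 + v.2 = 2 * m + 1 ∧ v.1 - v.2 = 1) := by
    intro v hv hv'
    exact ht ⟨v, z, hv'.1, hv'.2, h1, joined_symm hv⟩
  have h4 : Joined (ω.erase (e0 m)) z z' := by
    refine (joined_closed (C := fun v => Joined ω z v ∧ Joined (ω.erase (e0 m)) z v) ?_ h3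
      ⟨joined_refl _ _, joined_refl _ _⟩).2
    rintro a b hab ⟨ha1, ha2⟩
    have hb1 : Joined ω z b := joined_trans ha1 (joined_edge hab)
    refine ⟨hb1, joined_trans ha2 (joined_edge ?_)⟩
    rw [mem_erase]
    refine ⟨?_, hab⟩
    intro he
    unfold e0 at he
    rw [Sym2.eq_iff] at he
    rcases he with ⟨_, rfl⟩ | ⟨rfl, _⟩
    · exact hno _ hb1 ⟨by simp only; ring, by simp only; ring⟩
    · exact hno _ ha1 ⟨by simp only; ring, by simp only; ring⟩
  refine ⟨z, z', by omega, h4, Or.inl ⟨h2, ?_⟩⟩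
  have := hno z' h3
  omega

/-- the exact event and the crossing event differ by an arm from the corner to the top wall -/
theorem pL_le (m k : ℕ) (M : ℤ) {n : ℕ} (hn : n ≤ k + 1) :
    pL (2 * m + 1) (2 * k + 1) M ≤ pX m k M + pi1 n := by
  classical
  calc pL (2 * m + 1) (2 * k + 1) M ≤ P (lE (2 * m + 1) (2 * k + 1) M)
        (fun ω => CrX m k ω ∨ ToTop (2 * k + 1) (2 * m + 1) 1 ω) := by
        unfold pL
        exact P_mono fun S _ hc => crX_of_crL hc
    _ ≤ _ := P_or_le _ _ _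
    _ ≤ _ := add_le_add le_rfl (P_toTop (by omega))

/-! ### the top wall moves up -/

lemma crL_h {L h M : ℤ} (hh : 0 ≤ h) {ω : Finset (Sym2 (ℤ × ℤ))} (hω : ω ⊆ lE L (h + 1) M)
    (hc : CrL L (h + 1) ω) : CrL L h (ω ∩ lE L h M) := by
  classical
  obtain ⟨z, z', h1, ⟨h2, h2'⟩, h3⟩ := hc
  have hzz : z' ≠ z := by
    rintro rfl
    omega
  have hz' := mem_of_joined_ne hω (joined_symm h3) hzz
  set T : Finset (ℤ × ℤ) := (dom L (h + 1) M).filter (fun v => v.1 - v.2 < h + 1) with hT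
  by_cases h5 : z'.1 - z'.2 = h + 1
  · exact ⟨z', z', h5, ⟨h2, h2'⟩, joined_refl _ _⟩
  obtain ⟨w, w', w1, w2, w3, w4, w5, w6⟩ := joined_exit (T := T) hω (joined_symm h3)
    (by rw [hT, mem_filter]; exact ⟨hz', by omega⟩) (by rw [hT, mem_filter]; omega)
  rw [hT, mem_filter, mem_dom] at w1
  have w3' := mem_dom.1 w3
  have h6 := adj_level w4
  have h7 : w'.1 - w'.2 = h + 1 := by
    by_contra hne
    apply w2
    rw [hT, mem_filter]
    exact ⟨w3, by omega⟩
  obtain ⟨⟨⟨a1, a2, a3⟩, a4, a5⟩, a6⟩ := w1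
  obtain ⟨⟨b1, b2, b3⟩, b4, b5⟩ := w3'
  have hsub : ω ∩ edgesIn T ⊆ ω ∩ lE L h M := by
    intro e he
    rw [mem_inter] at he ⊢
    refine ⟨he.1, edgesIn_mono ?_ he.2⟩
    intro x hx
    rw [hT, mem_filter, mem_dom] at hx
    rw [mem_dom]
    obtain ⟨⟨⟨c1, c2, c3⟩, c4, c5⟩, c6⟩ := hx
    exact ⟨⟨c1, by omega, c3⟩, c4, c5⟩
  refine ⟨w', z', h7, ⟨h2, h2'⟩, joined_trans (v := w) (joined_symm (joined_edge ?_))
    (joined_symm (joined_mono hsub w6))⟩
  rw [mem_inter]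
  refine ⟨w5, ?_⟩
  unfold lE
  rw [mem_edgesIn, mem_dom, mem_dom]
  exact ⟨⟨⟨a1, by omega, a3⟩, a4, a5⟩, ⟨⟨b1, by omega, b3⟩, b4, b5⟩, w4⟩

lemma lE_h {L h h' M : ℤ} (hh : h ≤ h') : lE L h M ⊆ lE L h' M := by
  refine edgesIn_mono ?_
  intro v hv
  rw [mem_dom] at hv ⊢
  obtain ⟨⟨c1, c2, c3⟩, c4⟩ := hv
  exact ⟨⟨c1, by omega, c3⟩, c4⟩

lemma lE_L {L L' h M : ℤ} (hh : L ≤ L') : lE L h M ⊆ lE L' h M := by
  refine edgesIn_mono ?_
  intro v hv
  rw [mem_dom] at hv ⊢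
  obtain ⟨⟨c1, c2, c3⟩, c4⟩ := hv
  exact ⟨⟨c1, c2, fun h5 => c3 ⟨by omega, h5.2⟩⟩, c4⟩

lemma pL_restrict {L L' h h' M : ℤ} (hL : L ≤ L') (hh : h ≤ h') :
    P (lE L' h' M) (fun ω => CrL L h (ω ∩ lE L h M)) = pL L h M := by
  classical
  have hsub : lE L h M ⊆ lE L' h' M := (lE_L hL).trans (lE_h hh)
  have hD : Dep (lE L h M) (fun ω : Finset (Sym2 (ℤ × ℤ)) => CrL L h (ω ∩ lE L h M)) := by
    intro S
    simp only
    rw [inter_assoc, inter_self]
  refine (P_restrict hsub hD).trans ?_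
  unfold pL
  apply P_congr
  intro S hS
  rw [inter_eq_left.2 hS]

/-- the crossing probability decreases in the height of the right leg -/
theorem pL_h {L h M : ℤ} (hh : 0 ≤ h) : pL L (h + 1) M ≤ pL L h M := by
  rw [← pL_restrict (M := M) (le_refl L) (show h ≤ h + 1 by omega)]
  exact P_mono fun S hS hc => crL_h hh hS hc

/-! ### the lower leg becomes wider -/

lemma crL_L {L h M : ℤ} (hh : 1 ≤ h) {ω : Finset (Sym2 (ℤ × ℤ))} (hω : ω ⊆ lE (L + 1) h M)
    (hc : CrL (L + 1) h ω) :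
    CrL L h (ω ∩ lE L h M) ∨ ToTop h (L + 1) 1 ω ∨ ToTop h (L + 2) 1 ω := by
  classical
  obtain ⟨z, z', h1, ⟨h2, h2'⟩, h3⟩ := hc
  have hzz : z ≠ z' := by
    rintro rfl
    omega
  have hz := mem_of_joined_ne hω h3 hzz
  set T : Finset (ℤ × ℤ) := dom L h M with hT
  have hzT : z ∈ T := by
    rw [hT]
    rw [mem_dom] at hz ⊢
    obtain ⟨⟨c1, c2, c3⟩, c4⟩ := hz
    exact ⟨⟨c1, c2, fun h5 => by omega⟩, c4⟩
  by_cases hz1 : z'.1 - z'.2 = 1
  · right; left
    exact ⟨z', z, h2, hz1, h1, joined_symm h3⟩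
  have hz'T : z' ∉ T := by
    rw [hT, mem_dom]
    rintro ⟨⟨c1, c2, c3⟩, c4⟩
    exact c3 ⟨by omega, by omega⟩
  obtain ⟨w, w', w1, w2, w3, w4, w5, w6⟩ := joined_exit (T := T) hω h3 hzT hz'T
  have g1 := adj_sum w4
  have g2 := adj_level w4
  have w1' := mem_dom.1 w1
  have w3' := mem_dom.1 w3
  obtain ⟨⟨a1, a2, a3⟩, a4, a5⟩ := w1'
  obtain ⟨⟨b1, b2, b3⟩, b4, b5⟩ := w3'
  have h5 : w'.1 + w'.2 = L + 1 ∧ w'.1 - w'.2 < 1 := by
    by_contra hne
    apply w2
    rw [hT, mem_dom]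
    refine ⟨⟨b1, b2, ?_⟩, b4, b5⟩
    rintro ⟨c1, c2⟩
    exact b3 ⟨by omega, c2⟩
  by_cases h6 : w.1 + w.2 = L
  · left
    exact ⟨z, w, h1, ⟨h6, by omega⟩, joined_mono (inter_subset_inter_left subset_rfl) w6⟩
  · right; right
    have h7 : w.1 - w.2 = 1 := by
      by_contra hne
      exact a3 ⟨by omega, by omega⟩
    exact ⟨w, z, by omega, h7, h1, joined_symm (joined_mono inter_subset_left w6)⟩

/-- widening the lower leg by one line -/
theorem pL_L {L h M : ℤ} (hh : 1 ≤ h) {n : ℕ} (hn : 2 * (n : ℤ) ≤ h + 1) :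
    pL (L + 1) h M ≤ pL L h M + 2 * pi1 n := by
  classical
  calc pL (L + 1) h M ≤ P (lE (L + 1) h M)
        (fun ω => CrL L h (ω ∩ lE L h M) ∨ ToTop h (L + 1) 1 ω ∨ ToTop h (L + 2) 1 ω) := by
        unfold pL
        exact P_mono fun S hS hc => crL_L hh hS hc
    _ ≤ _ := P_or_le _ _ _
    _ ≤ pL L h M + (pi1 n + pi1 n) := by
        refine add_le_add (pL_restrict (by omega) le_rfl).le ((P_or_le _ _ _).trans
          (add_le_add (P_toTop (by omega)) (P_toTop (by omega))))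
    _ = _ := by ring

end H47Perc.LN
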