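import Pool.Agent.Helper32.LGeo.Trunc
import Pool.Agent.Helper53.LGeo.Parity
import Pool.Agent.Helper53.Slit.FinalC

/-!
The L-shaped corridor: uniform convergence of the crossing probabilities for all widths, from the exact
values (for the exact event) and their limits for odd widths.
-/

set_option autoImplicit false

namespace H47Perc.LN
open Finset Filter Topology SimpleGraph H47Perc H47Perc.DS H47Perc.SL
open Pool.Agent.Helper69.RSW (P P_le_one P_nonneg)

/-! ### all widths against odd widths -/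

lemma two_half_lo (x : ℕ) : 2 * ((((x - 1) / 2 : ℕ)) : ℤ) + 1 = ((lo x : ℕ) : ℤ) := by
  unfold lo
  push_cast
  ring

lemma two_half_up (x : ℕ) : 2 * (((x / 2 : ℕ)) : ℤ) + 1 = ((up x : ℕ) : ℤ) := by
  unfold up
  push_cast
  ring

/-- upper bound by the exact event with the next smaller odd widths -/
lemma pL_le_lo {L h M n : ℕ} (hL : 1 ≤ L) (hh : 1 ≤ h) (hn : 2 * n ≤ h + 1) :
    pL L h M ≤ pX ((L - 1) / 2) ((h - 1) / 2) M + 3 * pi1 n := by
  have h0 := pi1_nonneg n
  have e1 : pL L h M ≤ pL (lo L : ℕ) h M + 2 * pi1 n := by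
    rcases Nat.even_or_odd L with hk | hk
    · obtain ⟨k, rfl⟩ := hk
      have e : ((k + k : ℕ) : ℤ) = ((lo (k + k) : ℕ) : ℤ) + 1 := by
        unfold lo
        omega
      rw [e]
      exact pL_L (by exact_mod_cast hh) (by exact_mod_cast hn)
    · obtain ⟨k, rfl⟩ := hk
      have e : lo (2 * k + 1) = 2 * k + 1 := by
        unfold lo
        omega
      rw [e]
      linarith
  have e2 : pL (lo L : ℕ) h M ≤ pL (lo L : ℕ) (lo h : ℕ) M := by
    rcases Nat.even_or_odd h with hk | hk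
    · obtain ⟨k, rfl⟩ := hk
      have e : ((k + k : ℕ) : ℤ) = ((lo (k + k) : ℕ) : ℤ) + 1 := by
        unfold lo
        omega
      rw [e]
      exact pL_h (by positivity)
    · obtain ⟨k, rfl⟩ := hk
      have e : lo (2 * k + 1) = 2 * k + 1 := by
        unfold lo
        omega
      rw [e]
  have e3 := pL_le ((L - 1) / 2) ((h - 1) / 2) (M : ℤ) (n := n) (by omega)
  rw [two_half_lo, two_half_lo] at e3
  linarith

/-- lower bound by the exact event with the next larger odd widths -/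
lemma pL_ge_up {L h M n : ℕ} (hh : 1 ≤ h) (hn : 2 * n ≤ h + 1) :
    pX (L / 2) (h / 2) M ≤ pL L h M + 2 * pi1 n := by
  have h0 := pi1_nonneg n
  have e0 := pX_le (L / 2) (h / 2) (M : ℤ)
  rw [two_half_up, two_half_up] at e0
  have e1 : pL (up L : ℕ) (up h : ℕ) M ≤ pL (up L : ℕ) h M := by
    rcases Nat.even_or_odd h with hk | hk
    · obtain ⟨k, rfl⟩ := hk
      have e : ((up (k + k) : ℕ) : ℤ) = ((k + k : ℕ) : ℤ) + 1 := by
        unfold up
        omega
      rw [e]
      exact pL_h (by positivity)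
    · obtain ⟨k, rfl⟩ := hk
      have e : up (2 * k + 1) = 2 * k + 1 := by
        unfold up
        omega
      rw [e]
  have e2 : pL (up L : ℕ) h M ≤ pL L h M + 2 * pi1 n := by
    rcases Nat.even_or_odd L with hk | hk
    · obtain ⟨k, rfl⟩ := hk
      have e : ((up (k + k) : ℕ) : ℤ) = ((k + k : ℕ) : ℤ) + 1 := by
        unfold up
        omega
      rw [e]
      exact pL_L (by exact_mod_cast hh) (by exact_mod_cast hn)
    · obtain ⟨k, rfl⟩ := hk
      have e : up (2 * k + 1) = 2 * k + 1 := by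
        unfold up
        omega
      rw [e]
      linarith
  linarith

/-! ### truncation -/

lemma pL_mono_nat {L h M M' : ℕ} (hM : M ≤ M') : pL L h M ≤ pL L h M' :=
  pL_mono (by exact_mod_cast hM)

lemma pX_mono_nat {m k M M' : ℕ} (hM : M ≤ M') : pX m k M ≤ pX m k M' :=
  pX_mono (by exact_mod_cast hM)

/-- from blocks to all heights -/
lemma height_of_trunc {f : ℕ → ℝ} (hf : Monotone f) {c C : ℝ} (hc : 0 < c) (hC : 0 < C) {s : ℕ}
    (hs : 0 < s) (h : ∀ K M : ℕ, f M ≤ f (K * s) + C * Real.exp (-(c * K))) (M M' : ℕ) :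
    f M' - f M ≤ (C * Real.exp c) * Real.exp (-(c * (M / s))) := by
  set K : ℕ := M / s with hK
  have hKM : K * s ≤ M := Nat.div_mul_le_self M s
  have h2 : f (K * s) ≤ f M := hf hKM
  have h3 := h K M'
  have h4 : Real.exp (-(c * K)) ≤ Real.exp c * Real.exp (-(c * (M / s))) := by
    rw [← Real.exp_add]
    apply Real.exp_le_exp.2
    have h5 : (M : ℝ) / s ≤ K + 1 := by
      have h7 : (0 : ℝ) < s := by exact_mod_cast hs
      rw [div_le_iff₀ h7]
      have h6 : M < (K + 1) * s := by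
        rw [hK]
        exact Nat.lt_mul_of_div_lt (Nat.lt_succ_self _) hs
      exact_mod_cast h6.le
    nlinarith
  calc f M' - f M ≤ C * Real.exp (-(c * K)) := by linarith
    _ ≤ C * (Real.exp c * Real.exp (-(c * (M / s)))) := by gcongr
    _ = _ := by ring

/-- exponentially small dependence on the size of the truncation, both events -/
theorem height : ∃ c : ℝ, 0 < c ∧ ∃ C : ℝ, 0 < C ∧
    (∀ L h M M' : ℕ, 1 ≤ L → 1 ≤ h →
      pL L h M' - pL L h M ≤ C * Real.exp (-(c * (M / (L + h))))) ∧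
    (∀ m k M M' : ℕ,
      pX m k M' - pX m k M ≤ C * Real.exp (-(c * (M / ((2 * m + 1) + (2 * k + 1)))))) := by
  obtain ⟨c1, hc1, C1, hC1, H1⟩ := pL_trunc'
  obtain ⟨c2, hc2, C2, hC2, H2⟩ := pX_trunc'
  set c := min c1 c2 with hc
  set C := max C1 C2 with hC
  have hc0 : 0 < c := lt_min hc1 hc2
  have hC0 : 0 < C := lt_max_of_lt_left hC1
  have mono : ∀ (c' C' : ℝ), c ≤ c' → C' ≤ C → 0 < C' → ∀ K : ℕ,
      C' * Real.exp (-(c' * K)) ≤ C * Real.exp (-(c * K)) := by
    intro c' C' h1 h2 h3 K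
    apply mul_le_mul h2 _ (Real.exp_pos _).le hC0.le
    apply Real.exp_le_exp.2
    have : c * K ≤ c' * K := mul_le_mul_of_nonneg_right h1 (Nat.cast_nonneg K)
    linarith
  refine ⟨c, hc0, C * Real.exp c, by positivity, ?_, ?_⟩
  · intro L h M M' hL hh
    have := height_of_trunc (f := fun M : ℕ => pL L h M) (fun _ _ hM => pL_mono_nat hM) hc0 hC0
      (s := L + h) (by omega) (fun K M => by
        have h1 := H1 (L : ℤ) (h : ℤ) (by exact_mod_cast hL) (by exact_mod_cast hh) K M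
        have h2 := mono c1 C1 (min_le_left _ _) (le_max_left _ _) hC1 K
        push_cast
        linarith) M M'
    push_cast at this
    exact this
  · intro m k M M'
    have := height_of_trunc (f := fun M : ℕ => pX m k M) (fun _ _ hM => pX_mono_nat hM) hc0 hC0
      (s := (2 * m + 1) + (2 * k + 1)) (by omega) (fun K M => by
        have h1 := H2 m k K M
        have h2 := mono c2 C2 (min_le_right _ _) (le_max_right _ _) hC2 K
        push_cast
        linarith) M M'
    push_cast at this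
    exact this

/-- two sizes -/
lemma pL_two {c C : ℝ} (hC : 0 < C)
    (hb : ∀ L h M M' : ℕ, 1 ≤ L → 1 ≤ h →
      pL L h M' - pL L h M ≤ C * Real.exp (-(c * (M / (L + h))))) {L h M M' : ℕ}
    (hL : 1 ≤ L) (hh : 1 ≤ h) : |pL L h M - pL L h M'| ≤
      C * Real.exp (-(c * (M / (L + h)))) + C * Real.exp (-(c * (M' / (L + h)))) := by
  have e1 : 0 ≤ C * Real.exp (-(c * (M / (L + h)))) := by positivity
  have e2 : 0 ≤ C * Real.exp (-(c * (M' / (L + h)))) := by positivity
  have h1 := hb L h M M' hL hh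
  have h2 := hb L h M' M hL hh
  rw [abs_le]
  constructor <;> linarith

/-- the exact values up to an exponentially small error -/
theorem pX_bound {c C : ℝ}
    (hb : ∀ m k M M' : ℕ,
      pX m k M' - pX m k M ≤ C * Real.exp (-(c * (M / ((2 * m + 1) + (2 * k + 1)))))) {m k : ℕ} {v : ℝ}
    (H1 : Tendsto (fun M : ℕ => pX m k M) atTop (𝓝 v)) (M : ℕ) :
    |pX m k M - v| ≤ C * Real.exp (-(c * (M / ((2 * m + 1) + (2 * k + 1))))) := by
  have h1 : pX m k M ≤ v :=
    (show Monotone (fun M : ℕ => pX m k M) from fun _ _ hM => pX_mono_nat hM).ge_of_tendsto H1 M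
  have h3 : v - pX m k M ≤ C * Real.exp (-(c * (M / ((2 * m + 1) + (2 * k + 1))))) := by
    refine le_of_tendsto (H1.sub_const _) ?_
    filter_upwards with M'
    exact hb m k M M'
  rw [abs_sub_comm, abs_of_nonneg (by linarith)]
  exact h3

/-! ### the sandwich -/

/-- pairs `(L, h)` with `L → ∞` and `h / L → b` -/
noncomputable def nearL (b : ℝ) : Filter (ℕ × ℕ) :=
  comap (fun p : ℕ × ℕ => p.1) atTop ⊓ comap (fun p : ℕ × ℕ => (p.2 : ℝ) / p.1) (𝓝 b)

instance (b : ℝ) : (nearL b).IsCountablyGenerated := by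
  unfold nearL
  infer_instance

/-- convergence along sequences, all parities -/
theorem pL_seq {val : ℕ → ℕ → ℝ} {G : ℝ → ℝ}
    (H1 : ∀ m k : ℕ, Tendsto (fun M : ℕ => pX m k M) atTop (𝓝 (val m k)))
    (H2 : ∀ (m k : ℕ → ℕ) (b : ℝ), 0 < b → Tendsto m atTop atTop →
      Tendsto (fun n => ((2 * k n + 1 : ℕ) : ℝ) / ((2 * m n + 1 : ℕ) : ℝ)) atTop (𝓝 b) →
      Tendsto (fun n => val (m n) (k n)) atTop (𝓝 (G b)))
    {L h : ℕ → ℕ} {b : ℝ} (hb0 : 0 < b) (hlim : Tendsto L atTop atTop)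
    (hb : Tendsto (fun m => (h m : ℝ) / L m) atTop (𝓝 b)) :
    Tendsto (fun m => pL (L m) (h m) (((L m + h m) * (L m + h m) : ℕ) : ℤ)) atTop
      (𝓝 (G b)) := by
  obtain ⟨c, hc, C, hC, hbd, hbX⟩ := height
  have hL : Tendsto (fun m => (L m : ℝ)) atTop atTop := tendsto_natCast_atTop_atTop.comp hlim
  have hh : Tendsto (fun m => (h m : ℝ)) atTop atTop := by
    have h1 : Tendsto (fun m => ((h m : ℝ) / L m) * L m) atTop atTop :=
      Tendsto.pos_mul_atTop hb0 hb hL
    refine h1.congr' ?_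
    filter_upwards [hL.eventually_gt_atTop 0] with m hm
    field_simp
  have hev : ∀ᶠ m in atTop, 1 ≤ L m ∧ 1 ≤ h m := by
    filter_upwards [hL.eventually_ge_atTop 1, hh.eventually_ge_atTop 1] with m h1 h3
    exact ⟨by exact_mod_cast h1, by exact_mod_cast h3⟩
  obtain ⟨m0, hm0⟩ := eventually_atTop.1 hev
  rw [← tendsto_add_atTop_iff_nat m0]
  have sL := (tendsto_add_atTop_iff_nat (f := L) m0).2 hlim
  have sb := (tendsto_add_atTop_iff_nat (f := fun m => (h m : ℝ) / L m) m0).2 hb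
  have sh := (tendsto_add_atTop_iff_nat (f := fun m => (h m : ℝ)) m0).2 hh
  have hcm : ∀ m, 1 ≤ L (m + m0) ∧ 1 ≤ h (m + m0) := fun m => hm0 _ (by omega)
  have lo1 : ∀ x : ℕ, x ≤ lo x + 1 := fun x => by unfold lo; omega
  have lo2 : ∀ x : ℕ, lo x ≤ x + 1 := fun x => by unfold lo; omega
  have up1 : ∀ x : ℕ, x ≤ up x + 1 := fun x => by unfold up; omega
  have up2 : ∀ x : ℕ, up x ≤ x + 1 := fun x => by unfold up; omega
  have hloL : Tendsto (fun m => (L (m + m0) - 1) / 2) atTop atTop := by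
    rw [tendsto_atTop]
    intro K
    filter_upwards [sL.eventually_ge_atTop (2 * K + 3)] with m hm
    omega
  have hupL : Tendsto (fun m => L (m + m0) / 2) atTop atTop := by
    rw [tendsto_atTop]
    intro K
    filter_upwards [sL.eventually_ge_atTop (2 * K + 3)] with m hm
    omega
  have lim1 : Tendsto (fun m => val ((L (m + m0) - 1) / 2) ((h (m + m0) - 1) / 2)) atTop
      (𝓝 (G b)) :=
    H2 (fun m => (L (m + m0) - 1) / 2) (fun m => (h (m + m0) - 1) / 2) b hb0 hloL
      (ratio_tendsto sL sb (fun m => lo1 (L (m + m0))) (fun m => lo2 _) (fun m => lo1 (h (m + m0)))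
        (fun m => lo2 _))
  have lim2 : Tendsto (fun m => val (L (m + m0) / 2) (h (m + m0) / 2)) atTop (𝓝 (G b)) :=
    H2 (fun m => L (m + m0) / 2) (fun m => h (m + m0) / 2) b hb0 hupL
      (ratio_tendsto sL sb (fun m => up1 (L (m + m0))) (fun m => up2 _) (fun m => up1 (h (m + m0)))
        (fun m => up2 _))
  -- the truncation errors
  have herr : ∀ (L' h' : ℕ → ℕ), (∀ m, 2 * L' m + 1 ≤ L (m + m0) + 1) →
      (∀ m, 2 * h' m + 1 ≤ h (m + m0) + 1) →
      Tendsto (fun m => C * Real.exp (-(c * ((((L (m + m0) + h (m + m0)) * (L (m + m0) +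
        h (m + m0)) : ℕ) : ℝ) / ((2 * (L' m : ℝ) + 1) + (2 * (h' m : ℝ) + 1)))))) atTop (𝓝 0) := by
    intro L' h' h1 h2
    have hr : Tendsto (fun m => (((L (m + m0) + h (m + m0)) * (L (m + m0) +
        h (m + m0)) : ℕ) : ℝ) / ((2 * (L' m : ℝ) + 1) + (2 * (h' m : ℝ) + 1))) atTop atTop := by
      have h3 : Tendsto (fun m => (L (m + m0) : ℝ) * (1 / 3)) atTop atTop :=
        (tendsto_natCast_atTop_atTop.comp sL).atTop_mul_const (by norm_num)
      refine tendsto_atTop_mono' _ ?_ h3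
      filter_upwards [sL.eventually_ge_atTop 1] with m hm
      have a1 : (1 : ℝ) ≤ L (m + m0) := by exact_mod_cast hm
      have a3 : 2 * (L' m : ℝ) + 1 ≤ L (m + m0) + 1 := by exact_mod_cast h1 m
      have a4 : 2 * (h' m : ℝ) + 1 ≤ h (m + m0) + 1 := by exact_mod_cast h2 m
      have a5 : (0 : ℝ) ≤ h (m + m0) := by positivity
      have a6 : (0 : ℝ) ≤ h' m := by positivity
      have a7 : (0 : ℝ) ≤ L' m := by positivity
      push_cast
      rw [le_div_iff₀ (by linarith)]
      nlinarith [mul_nonneg (by linarith : (0:ℝ) ≤ L (m + m0)) a5, mul_nonneg a5 a5]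
    have h4 := (Real.tendsto_exp_neg_atTop_nhds_zero.comp (hr.const_mul_atTop hc)).const_mul C
    rw [mul_zero] at h4
    exact h4
  have err1 := herr (fun m => (L (m + m0) - 1) / 2) (fun m => (h (m + m0) - 1) / 2)
    (fun m => by omega) (fun m => by omega)
  have err2 := herr (fun m => L (m + m0) / 2) (fun m => h (m + m0) / 2)
    (fun m => by omega) (fun m => by omega)
  -- the one-arm error
  set nn : ℕ → ℕ := fun m => h (m + m0) / 2 with hnn
  have hn : Tendsto nn atTop atTop := by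
    rw [tendsto_atTop]
    intro k
    filter_upwards [sh.eventually_ge_atTop (2 * k + 3)] with m hm
    have h2 : 2 * k + 3 ≤ h (m + m0) := by exact_mod_cast hm
    simp only [hnn]
    omega
  have hpi : ∀ r : ℝ, Tendsto (fun m => r * pi1 (nn m)) atTop (𝓝 0) := by
    intro r
    have := (pi1_tendsto.comp hn).const_mul r
    rw [mul_zero] at this
    exact this
  have up' := (lim1.add err1).add (hpi 3)
  have lo' := (lim2.sub err2).sub (hpi 2)
  simp only [add_zero, sub_zero] at up' lo'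
  refine tendsto_of_tendsto_of_tendsto_of_le_of_le lo' up' (fun m => ?_) (fun m => ?_)
  · have h1 := pL_ge_up (L := L (m + m0)) (h := h (m + m0))
      (M := (L (m + m0) + h (m + m0)) * (L (m + m0) + h (m + m0))) (n := nn m)
      (hcm m).2 (by simp only [hnn]; omega)
    have h2 := pX_bound hbX (H1 (L (m + m0) / 2) (h (m + m0) / 2))
      ((L (m + m0) + h (m + m0)) * (L (m + m0) + h (m + m0)))
    have h3 := (abs_le.1 h2).1
    simp only
    linarith
  · have h1 := pL_le_lo (L := L (m + m0)) (h := h (m + m0))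
      (M := (L (m + m0) + h (m + m0)) * (L (m + m0) + h (m + m0))) (n := nn m) (hcm m).1
      (hcm m).2 (by simp only [hnn]; omega)
    have h2 := pX_bound hbX (H1 ((L (m + m0) - 1) / 2) ((h (m + m0) - 1) / 2))
      ((L (m + m0) + h (m + m0)) * (L (m + m0) + h (m + m0)))
    have h3 := (abs_le.1 h2).2
    simp only
    linarith

/-- **uniform convergence for the L-shaped corridor**, all widths -/
theorem pL_uniform {val : ℕ → ℕ → ℝ} {G : ℝ → ℝ}
    (H1 : ∀ m k : ℕ, Tendsto (fun M : ℕ => pX m k M) atTop (𝓝 (val m k)))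
    (H2 : ∀ (m k : ℕ → ℕ) (b : ℝ), 0 < b → Tendsto m atTop atTop →
      Tendsto (fun n => ((2 * k n + 1 : ℕ) : ℝ) / ((2 * m n + 1 : ℕ) : ℝ)) atTop (𝓝 b) →
      Tendsto (fun n => val (m n) (k n)) atTop (𝓝 (G b))) :
    ∃ c C : ℝ, 0 < c ∧ 0 < C ∧
      (∀ m k M : ℕ,
        |pX m k M - val m k| ≤ C * Real.exp (-(c * (M / ((2 * m + 1) + (2 * k + 1)))))) ∧
      ∀ b : ℝ, 0 < b → ∀ ε : ℝ, 0 < ε →
        ∃ δ : ℝ, 0 < δ ∧ ∃ L₀ : ℕ, ∀ L h M : ℕ, L₀ ≤ L → |(h : ℝ) / L - b| < δ →
          |pL L h M - G b| ≤ ε + C * Real.exp (-(c * (M / (L + h)))) := by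
  obtain ⟨c, hc, C, hC, hbd, hbX⟩ := height
  refine ⟨c, C, hc, hC, fun m k M => pX_bound hbX (H1 m k) M, fun b hb0 ε hε => ?_⟩
  have h1 : Tendsto (fun p : ℕ × ℕ => pL p.1 p.2 (((p.1 + p.2) * (p.1 + p.2) : ℕ) : ℤ)) (nearL b)
      (𝓝 (G b)) := by
    apply tendsto_of_seq_tendsto
    intro x hx
    unfold nearL at hx
    rw [tendsto_inf, tendsto_comap_iff, tendsto_comap_iff] at hx
    exact pL_seq H1 H2 (L := fun m => (x m).1) (h := fun m => (x m).2) hb0 hx.1 hx.2
  rw [Metric.tendsto_nhds] at h1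
  have h2 := h1 (ε / 2) (half_pos hε)
  have h3 : ∃ N : ℕ, ∃ δ : ℝ, 0 < δ ∧ ∀ L h : ℕ, N ≤ L → |(h : ℝ) / L - b| < δ →
      |pL L h (((L + h) * (L + h) : ℕ) : ℤ) - G b| < ε / 2 := by
    unfold nearL at h2
    rw [(((atTop_basis.comap (fun p : ℕ × ℕ => p.1)).inf
      (Metric.nhds_basis_ball.comap (fun p : ℕ × ℕ => (p.2 : ℝ) / p.1)))).eventually_iff] at h2
    obtain ⟨⟨N, δ⟩, ⟨_, hδ⟩, h3⟩ := h2
    refine ⟨N, δ, hδ, fun L h hN hh => ?_⟩
    have e := @h3 (L, h) ⟨by simpa using hN, by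
      simp only [Set.mem_preimage, Metric.mem_ball, Real.dist_eq]
      exact hh⟩
    rw [Real.dist_eq] at e
    exact e
  obtain ⟨N, δ, hδ, h3⟩ := h3
  have hexp : Tendsto (fun L : ℕ => C * Real.exp (-(c * (L : ℝ)))) atTop (𝓝 0) := by
    have e1 : Tendsto (fun L : ℕ => c * (L : ℝ)) atTop atTop :=
      tendsto_natCast_atTop_atTop.const_mul_atTop hc
    have e2 := (Real.tendsto_exp_neg_atTop_nhds_zero.comp e1).const_mul C
    rw [mul_zero] at e2
    exact e2
  have h4 := (Metric.tendsto_nhds.1 hexp) (ε / 2) (half_pos hε)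
  obtain ⟨N', hN'⟩ := eventually_atTop.1 h4
  refine ⟨min δ b, lt_min hδ hb0, max (max N N') 1, fun L h M hL hh => ?_⟩
  have hL1 : 1 ≤ L := (le_max_right _ _).trans hL
  have hLN : N ≤ L := ((le_max_left _ _).trans (le_max_left _ _)).trans hL
  have hLN' : N' ≤ L := ((le_max_right _ _).trans (le_max_left _ _)).trans hL
  have hL0 : (0 : ℝ) < L := by exact_mod_cast hL1
  have hh1 : 1 ≤ h := by
    have e1 := (abs_lt.1 hh).1
    have e2 : (0 : ℝ) < h / L := by
      have := min_le_right δ b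
      linarith
    have e3 : (0 : ℝ) < h := by
      by_contra hcon
      push Not at hcon
      exact absurd e2 (not_lt.2 (div_nonpos_of_nonpos_of_nonneg hcon hL0.le))
    exact_mod_cast e3
  have e3 := h3 L h hLN (hh.trans_le (min_le_left _ _))
  have e4 := pL_two hC hbd (M := M) (M' := (L + h) * (L + h)) hL1 hh1
  have e5 := hN' (L + h) (by omega)
  rw [Real.dist_eq, sub_zero] at e5
  have e6 : (((L + h) * (L + h) : ℕ) : ℝ) / ((L : ℝ) + h) = ((L + h : ℕ) : ℝ) := by
    have : (L : ℝ) + h ≠ 0 := by positivity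
    push_cast
    field_simp
  rw [e6] at e4
  have e7 := (abs_lt.1 e5).2
  calc |pL L h M - G b| ≤ |pL L h M - pL L h (((L + h) * (L + h) : ℕ) : ℤ)| +
        |pL L h (((L + h) * (L + h) : ℕ) : ℤ) - G b| := abs_sub_le _ _ _
    _ ≤ (C * Real.exp (-(c * (M / (L + h)))) + C * Real.exp (-(c * ((L + h : ℕ) : ℝ)))) + ε / 2 :=
        add_le_add e4 e3.le
    _ ≤ _ := by linarith

end H47Perc.LN
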